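import Pool.Agent.R352.CV.Variance

/-! From the sieved count to the coprime count in the limit. -/

namespace Pool.Agent.R352.CV

open Finset Filter Topology

/-- A sequence uniformly approximated by convergent sequences converges. -/
theorem exists_limit (u : ℕ → ℝ) (v : ℕ → ℕ → ℝ) (q : ℕ → ℝ) (C : ℝ)
    (h1 : ∀ y, Tendsto (v y) atTop (𝓝 (q y)))
    (h2 : ∀ y, 1 ≤ y → ∀ᶠ n in atTop, |u n - v y n| ≤ C / y) :
    ∃ p, Tendsto u atTop (𝓝 p) ∧ ∀ y, 1 ≤ y → |p - q y| ≤ C / y := by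
  have hc : CauchySeq u := by
    rw [Metric.cauchySeq_iff']
    intro ε hε
    have h3 : Tendsto (fun y : ℕ => C / (y : ℝ)) atTop (𝓝 0) :=
      tendsto_const_div_atTop_nhds_zero_nat C
    have h4 : ∀ᶠ y : ℕ in atTop, C / (y : ℝ) < ε / 4 :=
      h3.eventually (gt_mem_nhds (by positivity))
    obtain ⟨y, hy1, hy2⟩ := (h4.and (eventually_ge_atTop 1)).exists
    have h5 : ∀ᶠ n in atTop, |v y n - q y| < ε / 4 := by
      have := (Metric.tendsto_nhds.1 (h1 y)) (ε / 4) (by positivity)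
      simpa [Real.dist_eq] using this
    obtain ⟨N, hN⟩ := eventually_atTop.1 ((h2 y hy2).and h5)
    refine ⟨N, fun n hn => ?_⟩
    rw [Real.dist_eq]
    have ha := hN n hn
    have hb := hN N le_rfl
    rw [abs_le, abs_lt] at ha hb
    rw [abs_lt]
    constructor <;> linarith [ha.1.1, ha.1.2, ha.2.1, ha.2.2, hb.1.1, hb.1.2, hb.2.1, hb.2.2]
  obtain ⟨p, hp⟩ := cauchySeq_tendsto_of_complete hc
  refine ⟨p, hp, fun y hy => ?_⟩
  exact le_of_tendsto ((hp.sub (h1 y)).abs) (h2 y hy)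

/-- Number of coprime pairs in the block (reindexed). -/
def Z0 (M a b : ℕ) : ℕ :=
  ((range M ×ˢ range M).filter
    (fun x => Nat.gcd (a + (x.1 + 1)) (b + (x.2 + 1)) = 1)).card

/-- Sieved count. -/
def ZS (S : Finset ℕ) (M a b : ℕ) : ℕ :=
  ((range M ×ˢ range M).filter
    (fun x => ∀ p ∈ S, ¬ (p ∣ a + (x.1 + 1) ∧ p ∣ b + (x.2 + 1)))).card

theorem W_eq (S : Finset ℕ) (M a b : ℕ) : W S M a b = ZS S M a b := by
  unfold W ZS
  rw [Finset.card_filter]
  push_cast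
  refine Finset.sum_congr rfl fun x _ => ?_
  by_cases h : ∀ p ∈ S, ¬ (p ∣ a + (x.1 + 1) ∧ p ∣ b + (x.2 + 1))
  · rw [if_pos h]
    apply Finset.prod_eq_one
    intro p hp
    have := h p hp
    unfold loc e
    by_cases h1 : p ∣ a + (x.1 + 1)
    · rw [if_pos h1, if_neg fun h2 => this ⟨h1, h2⟩]
      ring
    · rw [if_neg h1]
      ring
  · rw [if_neg h]
    push Not at h
    obtain ⟨p, hp, h1, h2⟩ := h
    apply Finset.prod_eq_zero hp
    unfold loc e
    rw [if_pos h1, if_pos h2]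
    ring

theorem ZS_le (S : Finset ℕ) (M a b : ℕ) : ZS S M a b ≤ M ^ 2 := by
  unfold ZS
  refine (Finset.card_filter_le _ _).trans ?_
  rw [card_product, card_range, sq]

theorem Z0_le (M a b : ℕ) : Z0 M a b ≤ M ^ 2 := by
  unfold Z0
  refine (Finset.card_filter_le _ _).trans ?_
  rw [card_product, card_range, sq]

/-- Primes up to `y`. -/
def P (y : ℕ) : Finset ℕ := (range (y + 1)).filter Nat.Prime

theorem mem_P {y p : ℕ} : p ∈ P y ↔ p ≤ y ∧ p.Prime := by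
  unfold P
  simp

/-- The exceptional set. -/
def Bad (M n y : ℕ) : Finset (ℕ × ℕ) :=
  (range M ×ˢ range M).biUnion fun x => (Ioc y (n + M)).biUnion fun m =>
    (Icc 1 n).filter (fun a => m ∣ a + (x.1 + 1)) ×ˢ
      (Icc 1 n).filter (fun b => m ∣ b + (x.2 + 1))

theorem mem_Bad_of_ne {M n y : ℕ} {a b : ℕ} (ha : a ∈ Icc 1 n) (hb : b ∈ Icc 1 n)
    (h : Z0 M a b ≠ ZS (P y) M a b) : (a, b) ∈ Bad M n y := by
  by_contra hbad
  apply h
  unfold Z0 ZS
  congr 1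
  refine Finset.filter_congr fun x hx => ?_
  constructor
  · intro h1 p hp h2
    have h3 := Nat.dvd_gcd h2.1 h2.2
    rw [h1, Nat.dvd_one] at h3
    exact (mem_P.1 hp).2.one_lt.ne' h3
  · intro h1
    by_contra h2
    obtain ⟨p, hp, hp2⟩ := Nat.exists_prime_and_dvd h2
    have h3 := (Nat.dvd_gcd_iff.1 hp2)
    by_cases hpy : p ≤ y
    · exact h1 p (mem_P.2 ⟨hpy, hp⟩) h3
    · apply hbad
      unfold Bad
      simp only [mem_biUnion, mem_product, mem_filter, mem_Ioc]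
      have hx' := Finset.mem_product.1 hx
      rw [mem_range, mem_range] at hx'
      have ha' := mem_Icc.1 ha
      refine ⟨x, ⟨mem_range.2 hx'.1, mem_range.2 hx'.2⟩, p, ⟨by omega, ?_⟩, ⟨ha, h3.1⟩, hb, h3.2⟩
      have := Nat.le_of_dvd (by omega) h3.1
      omega

theorem card_dvd_le {M n m i : ℕ} (hi : i ≤ M) :
    ((Icc 1 n).filter (fun a => m ∣ a + i)).card ≤ (n + M) / m := by
  rw [← Nat.Ioc_filter_dvd_card_eq_div]
  refine Finset.card_le_card_of_injOn (fun a => a + i) ?_ ?_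
  · intro a ha
    simp only [coe_filter, mem_Icc, Set.mem_ofPred_eq, mem_Ioc] at ha ⊢
    exact ⟨by omega, ha.2⟩
  · intro a _ b _ hab
    simpa using hab

theorem card_Bad_le {M n y : ℕ} (hy : 1 ≤ y) :
    ((Bad M n y).card : ℝ) ≤ (M : ℝ) ^ 2 * ((n : ℝ) + M) ^ 2 / y := by
  have h1 : (Bad M n y).card ≤ ∑ x ∈ range M ×ˢ range M, ∑ m ∈ Ioc y (n + M),
      ((n + M) / m) * ((n + M) / m) := by
    unfold Bad
    refine Finset.card_biUnion_le.trans (Finset.sum_le_sum fun x hx => ?_)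
    refine Finset.card_biUnion_le.trans (Finset.sum_le_sum fun m _ => ?_)
    have hx' := Finset.mem_product.1 hx
    rw [mem_range, mem_range] at hx'
    rw [card_product]
    exact Nat.mul_le_mul (card_dvd_le (by omega)) (card_dvd_le (by omega))
  rw [Finset.sum_const, card_product, card_range, smul_eq_mul] at h1
  have h2 : ((Bad M n y).card : ℝ) ≤ (M * M : ℝ) * ∑ m ∈ Ioc y (n + M),
      (((n + M) / m : ℕ) : ℝ) * (((n + M) / m : ℕ) : ℝ) := by
    exact_mod_cast h1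
  have h3 : ∑ m ∈ Ioc y (n + M), (((n + M) / m : ℕ) : ℝ) * (((n + M) / m : ℕ) : ℝ) ≤
      ((n : ℝ) + M) ^ 2 * ((y : ℝ)⁻¹) := by
    calc ∑ m ∈ Ioc y (n + M), (((n + M) / m : ℕ) : ℝ) * (((n + M) / m : ℕ) : ℝ)
        ≤ ∑ m ∈ Ioc y (n + M), ((n : ℝ) + M) ^ 2 * (((m : ℝ) ^ 2)⁻¹) := by
          refine Finset.sum_le_sum fun m hm => ?_
          have h4 : (((n + M) / m : ℕ) : ℝ) ≤ ((n : ℝ) + M) / m := by
            have := @Nat.cast_div_le ℝ _ _ _ (n + M) m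
            push_cast at this
            exact this
          have h5 : (0 : ℝ) ≤ (((n + M) / m : ℕ) : ℝ) := Nat.cast_nonneg _
          calc _ ≤ (((n : ℝ) + M) / m) * (((n : ℝ) + M) / m) := by gcongr
            _ = _ := by ring
      _ = ((n : ℝ) + M) ^ 2 * ∑ m ∈ Ioc y (n + M), (((m : ℝ) ^ 2)⁻¹) := by
          rw [Finset.mul_sum]
      _ ≤ ((n : ℝ) + M) ^ 2 * ((y : ℝ)⁻¹) := by
          have h6 : ∑ m ∈ Ioc y (n + M), (((m : ℝ) ^ 2)⁻¹) ≤ (y : ℝ)⁻¹ := by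
            by_cases hle : y ≤ n + M
            · refine (sum_Ioc_inv_sq_le_sub (α := ℝ) (by omega) hle).trans ?_
              have : (0 : ℝ) ≤ (((n + M : ℕ) : ℝ))⁻¹ := by positivity
              linarith
            · rw [Finset.Ioc_eq_empty (by omega), Finset.sum_empty]
              positivity
          gcongr
  calc _ ≤ _ := h2
    _ ≤ (M * M : ℝ) * (((n : ℝ) + M) ^ 2 * ((y : ℝ)⁻¹)) := by gcongr
    _ = _ := by ring

/-- Counts of the level sets. -/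
def cnt0 (F : ℕ → ℕ → ℕ) (n r : ℕ) : ℕ :=
  ((Icc 1 n ×ˢ Icc 1 n).filter (fun x => F x.1 x.2 = r)).card

theorem cnt0_le {F G : ℕ → ℕ → ℕ} {n r : ℕ} {B : Finset (ℕ × ℕ)}
    (h : ∀ a ∈ Icc 1 n, ∀ b ∈ Icc 1 n, F a b ≠ G a b → (a, b) ∈ B) :
    cnt0 F n r ≤ cnt0 G n r + B.card := by
  have h1 : (Icc 1 n ×ˢ Icc 1 n).filter (fun x => F x.1 x.2 = r) ⊆
      (Icc 1 n ×ˢ Icc 1 n).filter (fun x => G x.1 x.2 = r) ∪ B := by
    rintro ⟨a, b⟩ hx
    rw [mem_filter, mem_product] at hx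
    rw [mem_union, mem_filter, mem_product]
    by_cases h2 : F a b = G a b
    · exact Or.inl ⟨hx.1, h2.symm.trans hx.2⟩
    · exact Or.inr (h a hx.1.1 b hx.1.2 h2)
  exact (Finset.card_le_card h1).trans (Finset.card_union_le _ _)

theorem cnt0_diff {M n y : ℕ} (r : ℕ) :
    |(cnt0 (Z0 M) n r : ℝ) - cnt0 (ZS (P y) M) n r| ≤ (Bad M n y).card := by
  have h1 : cnt0 (Z0 M) n r ≤ cnt0 (ZS (P y) M) n r + (Bad M n y).card :=
    cnt0_le fun a ha b hb h => mem_Bad_of_ne ha hb h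
  have h2 : cnt0 (ZS (P y) M) n r ≤ cnt0 (Z0 M) n r + (Bad M n y).card :=
    cnt0_le fun a ha b hb h => mem_Bad_of_ne ha hb (Ne.symm h)
  have h1' : (cnt0 (Z0 M) n r : ℝ) ≤ cnt0 (ZS (P y) M) n r + (Bad M n y).card := by
    exact_mod_cast h1
  have h2' : (cnt0 (ZS (P y) M) n r : ℝ) ≤ cnt0 (Z0 M) n r + (Bad M n y).card := by
    exact_mod_cast h2
  rw [abs_le]
  constructor <;> linarith

/-- Density of a level set of the sieved count. -/
noncomputable def q (M y r : ℕ) : ℝ :=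
  SQ (∏ p ∈ P y, p) (fun a b => if ZS (P y) M a b = r then 1 else 0) /
    ((∏ p ∈ P y, p : ℕ) : ℝ) ^ 2

theorem prod_pos (y : ℕ) : 0 < ∏ p ∈ P y, p :=
  Finset.prod_pos fun _ hp => (mem_P.1 hp).2.pos

theorem W_per (y M : ℕ) : Per (∏ p ∈ P y, p) (W (P y) M) := by
  constructor
  · intro a b
    unfold W
    exact Finset.sum_congr rfl fun x _ =>
      (per_prod (P y) (g := fun p => loc p (x.1 + 1) (x.2 + 1)) fun p _ => per_loc p _ _).1 a b
  · intro a b
    unfold W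
    exact Finset.sum_congr rfl fun x _ =>
      (per_prod (P y) (g := fun p => loc p (x.1 + 1) (x.2 + 1)) fun p _ => per_loc p _ _).2 a b

theorem ZS_per1 (y M a b : ℕ) : ZS (P y) M (a + ∏ p ∈ P y, p) b = ZS (P y) M a b := by
  have := (W_per y M).1 a b
  rw [W_eq, W_eq] at this
  exact_mod_cast this

theorem ZS_per2 (y M a b : ℕ) : ZS (P y) M a (b + ∏ p ∈ P y, p) = ZS (P y) M a b := by
  have := (W_per y M).2 a b
  rw [W_eq, W_eq] at this
  exact_mod_cast this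

theorem tendsto_q (M y r : ℕ) :
    Tendsto (fun n : ℕ => (cnt0 (ZS (P y) M) n r : ℝ) / (n : ℝ) ^ 2) atTop (𝓝 (q M y r)) := by
  have h := tendsto_average (prod_pos y)
    (f := fun a b => if ZS (P y) M a b = r then (1 : ℝ) else 0)
    ⟨fun a b => by simp only [ZS_per1], fun a b => by simp only [ZS_per2]⟩
  refine h.congr fun n => ?_
  congr 1
  unfold cnt0
  rw [Finset.card_filter]
  push_cast
  rfl

theorem approx (M r y : ℕ) (hy : 1 ≤ y) :
    ∀ᶠ n : ℕ in atTop, |(cnt0 (Z0 M) n r : ℝ) / (n : ℝ) ^ 2 -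
      (cnt0 (ZS (P y) M) n r : ℝ) / (n : ℝ) ^ 2| ≤ (4 * (M : ℝ) ^ 2) / y := by
  filter_upwards [eventually_ge_atTop M, eventually_gt_atTop 0] with n hn hn0
  have hn' : (M : ℝ) ≤ n := by exact_mod_cast hn
  have hn0' : (0 : ℝ) < n := by exact_mod_cast hn0
  have hy' : (0 : ℝ) < y := by exact_mod_cast hy
  rw [← sub_div, abs_div, abs_of_pos (by positivity : (0 : ℝ) < (n : ℝ) ^ 2),
    div_le_iff₀ (by positivity)]
  calc _ ≤ _ := cnt0_diff (M := M) (n := n) (y := y) r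
    _ ≤ _ := card_Bad_le hy
    _ ≤ (M : ℝ) ^ 2 * ((n : ℝ) + n) ^ 2 / y := by gcongr
    _ = _ := by ring

theorem moment (M y k : ℕ) :
    ∑ r ∈ range (M ^ 2 + 1), (r : ℝ) ^ k * q M y r =
      SQ (∏ p ∈ P y, p) (fun a b => W (P y) M a b ^ k) / ((∏ p ∈ P y, p : ℕ) : ℝ) ^ 2 := by
  unfold q
  simp_rw [← mul_div_assoc]
  rw [← Finset.sum_div]
  congr 1
  have h1 : ∀ a b, W (P y) M a b ^ k = ∑ r ∈ range (M ^ 2 + 1),
      (r : ℝ) ^ k * (if ZS (P y) M a b = r then 1 else 0) := by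
    intro a b
    rw [Finset.sum_eq_single (ZS (P y) M a b), if_pos rfl, mul_one, W_eq]
    · intro r _ hr
      rw [if_neg fun h => hr h.symm, mul_zero]
    · intro h
      exact absurd (mem_range.2 (Nat.lt_succ_of_le (ZS_le _ _ _ _))) h
  simp_rw [h1]
  rw [SQ_sum]
  refine Finset.sum_congr rfl fun r _ => ?_
  unfold SQ
  simp_rw [Finset.mul_sum]

theorem main (M : ℕ) :
    ∃ p : ℕ → ℝ,
      (∀ r, Tendsto (fun n : ℕ => (cnt0 (Z0 M) n r : ℝ) / (n : ℝ) ^ 2) atTop (𝓝 (p r))) ∧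
      ∑ r ∈ range (M ^ 2 + 1), p r = 1 ∧
      ∑ r ∈ range (M ^ 2 + 1), (r : ℝ) ^ 2 * p r -
        (∑ r ∈ range (M ^ 2 + 1), (r : ℝ) * p r) ^ 2 ≤
          ∑ r ∈ range (M ^ 2 + 1), (r : ℝ) * p r := by
  have hex : ∀ r, ∃ p, Tendsto (fun n : ℕ => (cnt0 (Z0 M) n r : ℝ) / (n : ℝ) ^ 2) atTop (𝓝 p) ∧
      ∀ y, 1 ≤ y → |p - q M y r| ≤ (4 * (M : ℝ) ^ 2) / y := fun r =>
    exists_limit _ (fun y n => (cnt0 (ZS (P y) M) n r : ℝ) / (n : ℝ) ^ 2) (fun y => q M y r) _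
      (fun y => tendsto_q M y r) (fun y hy => approx M r y hy)
  choose p hp hq using hex
  refine ⟨p, hp, ?_, ?_⟩
  · have h1 : Tendsto (fun n : ℕ => ∑ r ∈ range (M ^ 2 + 1),
        (cnt0 (Z0 M) n r : ℝ) / (n : ℝ) ^ 2) atTop (𝓝 (∑ r ∈ range (M ^ 2 + 1), p r)) :=
      tendsto_finsetSum _ fun r _ => hp r
    have h2 : Tendsto (fun n : ℕ => ∑ r ∈ range (M ^ 2 + 1),
        (cnt0 (Z0 M) n r : ℝ) / (n : ℝ) ^ 2) atTop (𝓝 1) := by
      refine tendsto_const_nhds.congr' ?_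
      filter_upwards [eventually_gt_atTop 0] with n hn
      have hn' : (0 : ℝ) < n := by exact_mod_cast hn
      rw [← Finset.sum_div, eq_comm, div_eq_one_iff_eq (by positivity)]
      have h3 : ∑ r ∈ range (M ^ 2 + 1), cnt0 (Z0 M) n r = (Icc 1 n ×ˢ Icc 1 n).card := by
        unfold cnt0
        exact (Finset.card_eq_sum_card_fiberwise (f := fun x : ℕ × ℕ => Z0 M x.1 x.2)
          (t := range (M ^ 2 + 1))
          (fun x _ => Finset.mem_coe.2 (mem_range.2 (Nat.lt_succ_of_le (Z0_le _ _ _))))).symm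
      rw [card_product, Nat.card_Icc] at h3
      have h4 : (∑ r ∈ range (M ^ 2 + 1), (cnt0 (Z0 M) n r : ℝ)) = ((n * n : ℕ) : ℝ) := by
        rw [← Nat.cast_sum, h3]
        simp
      rw [h4]
      push_cast
      ring
    exact tendsto_nhds_unique h1 h2
  · have hqt : ∀ r, Tendsto (fun y => q M y r) atTop (𝓝 (p r)) := by
      intro r
      rw [tendsto_iff_dist_tendsto_zero]
      refine squeeze_zero' (Eventually.of_forall fun _ => dist_nonneg) ?_
        (tendsto_const_div_atTop_nhds_zero_nat (4 * (M : ℝ) ^ 2))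
      filter_upwards [eventually_ge_atTop 1] with y hy
      rw [Real.dist_eq, abs_sub_comm]
      exact hq r y hy
    have h1 : Tendsto (fun y => ∑ r ∈ range (M ^ 2 + 1), (r : ℝ) ^ 2 * q M y r -
        (∑ r ∈ range (M ^ 2 + 1), (r : ℝ) * q M y r) ^ 2) atTop
        (𝓝 (∑ r ∈ range (M ^ 2 + 1), (r : ℝ) ^ 2 * p r -
        (∑ r ∈ range (M ^ 2 + 1), (r : ℝ) * p r) ^ 2)) :=
      (tendsto_finsetSum _ fun r _ => (hqt r).const_mul _).sub
        ((tendsto_finsetSum _ fun r _ => (hqt r).const_mul _).pow 2)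
    have h2 : Tendsto (fun y => ∑ r ∈ range (M ^ 2 + 1), (r : ℝ) * q M y r) atTop
        (𝓝 (∑ r ∈ range (M ^ 2 + 1), (r : ℝ) * p r)) :=
      tendsto_finsetSum _ fun r _ => (hqt r).const_mul _
    refine le_of_tendsto_of_tendsto' h1 h2 fun y => ?_
    have h3 := moment M y 2
    have h4 := moment M y 1
    simp only [pow_one] at h4
    rw [h3, h4]
    exact variance_le (P y) (fun p hp => (mem_P.1 hp).2) M

end Pool.Agent.R352.CV
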