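import Mathlib

/-! Sums of periodic functions over full periods: multiplicativity for coprime periods
and densities. -/

namespace Pool.Agent.R352.CV

open Finset Filter Topology

/-- One-dimensional multiplicativity. -/
theorem sum_mul_periodic {m n : ℕ} (hm : 0 < m) (hn : 0 < n) (hmn : Nat.Coprime m n)
    {f g : ℕ → ℝ} (hf : Function.Periodic f m) (hg : Function.Periodic g n) :
    ∑ a ∈ range (m * n), f a * g a = (∑ a ∈ range m, f a) * ∑ a ∈ range n, g a := by
  rw [Finset.sum_mul_sum, ← Finset.sum_product']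
  refine Finset.sum_bij' (fun a _ => (a % m, a % n))
    (fun x _ => (Nat.chineseRemainder hmn x.1 x.2 : ℕ)) ?_ ?_ ?_ ?_ ?_
  · intro a _
    simp only [mem_product, mem_range]
    exact ⟨Nat.mod_lt _ hm, Nat.mod_lt _ hn⟩
  · intro x _
    rw [mem_range]
    exact Nat.chineseRemainder_lt_mul hmn _ _ hm.ne' hn.ne'
  · intro a ha
    rw [mem_range] at ha
    have h1 := (Nat.chineseRemainder hmn (a % m) (a % n)).2.1
    have h2 := (Nat.chineseRemainder hmn (a % m) (a % n)).2.2
    have h3 : (Nat.chineseRemainder hmn (a % m) (a % n) : ℕ) ≡ a [MOD m] :=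
      h1.trans (Nat.mod_modEq a m)
    have h4 : (Nat.chineseRemainder hmn (a % m) (a % n) : ℕ) ≡ a [MOD n] :=
      h2.trans (Nat.mod_modEq a n)
    have h5 := (Nat.modEq_and_modEq_iff_modEq_mul hmn).1 ⟨h3, h4⟩
    exact Nat.ModEq.eq_of_lt_of_lt h5
      (Nat.chineseRemainder_lt_mul hmn _ _ hm.ne' hn.ne') ha
  · rintro ⟨x, y⟩ hx
    simp only [mem_product, mem_range] at hx
    have h1 := (Nat.chineseRemainder hmn x y).2.1
    have h2 := (Nat.chineseRemainder hmn x y).2.2
    refine Prod.ext ?_ ?_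
    · change _ % m = x
      rw [h1, Nat.mod_eq_of_lt hx.1]
    · change _ % n = y
      rw [h2, Nat.mod_eq_of_lt hx.2]
  · intro a _
    change f a * g a = f (a % m) * g (a % n)
    rw [hf.map_mod_nat, hg.map_mod_nat]

/-- Periodicity in both variables. -/
def Per (m : ℕ) (f : ℕ → ℕ → ℝ) : Prop :=
  (∀ a b, f (a + m) b = f a b) ∧ ∀ a b, f a (b + m) = f a b

/-- Sum over a full period square. -/
def SQ (m : ℕ) (f : ℕ → ℕ → ℝ) : ℝ := ∑ a ∈ range m, ∑ b ∈ range m, f a b

theorem SQ_mul {m n : ℕ} (hm : 0 < m) (hn : 0 < n) (hmn : Nat.Coprime m n)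
    {f g : ℕ → ℕ → ℝ} (hf : Per m f) (hg : Per n g) :
    SQ (m * n) (fun a b => f a b * g a b) = SQ m f * SQ n g := by
  unfold SQ
  have h1 : ∀ a, ∑ b ∈ range (m * n), f a b * g a b =
      (∑ b ∈ range m, f a b) * ∑ b ∈ range n, g a b := fun a =>
    sum_mul_periodic hm hn hmn (fun b => hf.2 a b) (fun b => hg.2 a b)
  simp_rw [h1]
  exact sum_mul_periodic hm hn hmn
    (fun a => by simp only [hf.1]) (fun a => by simp only [hg.1])

theorem per_mul {m n : ℕ} {f : ℕ → ℕ → ℝ} (hf : Per m f) : Per (m * n) f := by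
  constructor
  · intro a b
    have h : Function.Periodic (fun a => f a b) m := fun a => hf.1 a b
    have h2 := h.nat_mul n
    have h3 := h2 a
    simp only [Nat.cast_id] at h3
    rw [mul_comm]
    exact h3
  · intro a b
    have h : Function.Periodic (fun b => f a b) m := fun b => hf.2 a b
    have h2 := h.nat_mul n
    have h3 := h2 b
    simp only [Nat.cast_id] at h3
    rw [mul_comm]
    exact h3

theorem Per.mul' {m : ℕ} {f g : ℕ → ℕ → ℝ} (hf : Per m f) (hg : Per m g) :
    Per m (fun a b => f a b * g a b) :=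
  ⟨fun a b => by simp only [hf.1, hg.1], fun a b => by simp only [hf.2, hg.2]⟩

theorem per_prod (S : Finset ℕ) {g : ℕ → ℕ → ℕ → ℝ} (hg : ∀ p ∈ S, Per p (g p)) :
    Per (∏ p ∈ S, p) (fun a b => ∏ p ∈ S, g p a b) := by
  have h : ∀ p ∈ S, Per (∏ p ∈ S, p) (g p) := by
    intro p hp
    rw [← Finset.mul_prod_erase S _ hp]
    exact per_mul (hg p hp)
  constructor
  · intro a b
    exact Finset.prod_congr rfl fun p hp => (h p hp).1 a b
  · intro a b
    exact Finset.prod_congr rfl fun p hp => (h p hp).2 a b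

theorem SQ_prod (S : Finset ℕ) (hS : ∀ p ∈ S, p.Prime) {g : ℕ → ℕ → ℕ → ℝ}
    (hg : ∀ p ∈ S, Per p (g p)) :
    SQ (∏ p ∈ S, p) (fun a b => ∏ p ∈ S, g p a b) = ∏ p ∈ S, SQ p (g p) := by
  induction S using Finset.induction_on with
  | empty => simp [SQ]
  | insert p S hp ih =>
    have hS' : ∀ q ∈ S, q.Prime := fun q hq => hS q (Finset.mem_insert_of_mem hq)
    have hg' : ∀ q ∈ S, Per q (g q) := fun q hq => hg q (Finset.mem_insert_of_mem hq)
    have hpp : p.Prime := hS p (Finset.mem_insert_self _ _)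
    simp_rw [Finset.prod_insert hp]
    rw [SQ_mul hpp.pos (Finset.prod_pos fun q hq => (hS' q hq).pos) ?_
      (hg p (Finset.mem_insert_self _ _)) (per_prod S hg'), ih hS' hg']
    apply Nat.Coprime.prod_right
    intro q hq
    rw [Nat.coprime_primes hpp (hS' q hq)]
    rintro rfl
    exact hp hq

/-- Density of a residue class: the count is `n / m` up to a bounded error. -/
theorem class_bound {m : ℕ} (hm : 0 < m) (u n : ℕ) :
    |(((Icc 1 n).filter (fun a => a % m = u % m)).card : ℝ) - n / m| ≤ 3 := by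
  have h1 := Nat.count_modEq_card (n + 1) hm u
  have h2 : ((Icc 1 n).filter (fun a => a % m = u % m)).card + (if 0 % m = u % m then 1 else 0)
      = (n + 1).count (· ≡ u [MOD m]) := by
    rw [Nat.count_eq_card_filter_range]
    have h3 : range (n + 1) = insert 0 (Icc 1 n) := by
      ext x
      simp only [mem_range, mem_insert, mem_Icc]
      omega
    rw [h3, filter_insert]
    have h4 : (0 : ℕ) ∉ (Icc 1 n).filter (fun a => a ≡ u [MOD m]) := by simp
    by_cases h0 : 0 % m = u % m
    · have h0' : 0 ≡ u [MOD m] := h0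
      rw [if_pos h0, if_pos h0', card_insert_of_notMem h4]
      rfl
    · have h0' : ¬ (0 ≡ u [MOD m]) := h0
      rw [if_neg h0, if_neg h0']
      rfl
  rw [h1] at h2
  have hm' : (0 : ℝ) < m := Nat.cast_pos.2 hm
  have h5 : (((n + 1) / m : ℕ) : ℝ) ≤ ((n + 1 : ℕ) : ℝ) / m := Nat.cast_div_le
  have h6 : ((n + 1 : ℕ) : ℝ) / m < (((n + 1) / m : ℕ) : ℝ) + 1 := by
    rw [div_lt_iff₀ hm']
    have := Nat.lt_mul_div_succ (n + 1) hm
    have h7 : ((n + 1 : ℕ) : ℝ) < ((m * ((n + 1) / m + 1) : ℕ) : ℝ) := Nat.cast_lt.2 this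
    push_cast at h7 ⊢
    linarith [mul_comm (m : ℝ) ((((n + 1) / m : ℕ) : ℝ) + 1)]
  have h8 : ((n + 1 : ℕ) : ℝ) / m = n / m + 1 / m := by push_cast; ring
  have h9 : (1 : ℝ) / m ≤ 1 := by
    rw [div_le_one hm']
    exact_mod_cast hm
  have h10 : (0 : ℝ) < 1 / m := by positivity
  have hc : (((Icc 1 n).filter (fun a => a % m = u % m)).card : ℝ) +
      (if 0 % m = u % m then 1 else 0 : ℕ) = (((n + 1) / m : ℕ) : ℝ) +
      (if u % m < (n + 1) % m then 1 else 0 : ℕ) := by exact_mod_cast h2
  have h11 : (0 : ℝ) ≤ ((if 0 % m = u % m then 1 else 0 : ℕ) : ℝ) := Nat.cast_nonneg _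
  have h12 : ((if 0 % m = u % m then 1 else 0 : ℕ) : ℝ) ≤ 1 := by split_ifs <;> simp
  have h13 : (0 : ℝ) ≤ ((if u % m < (n + 1) % m then 1 else 0 : ℕ) : ℝ) := Nat.cast_nonneg _
  have h14 : ((if u % m < (n + 1) % m then 1 else 0 : ℕ) : ℝ) ≤ 1 := by split_ifs <;> simp
  rw [abs_le]
  constructor <;> linarith

theorem tendsto_class {m : ℕ} (hm : 0 < m) (u : ℕ) :
    Tendsto (fun n : ℕ => (((Icc 1 n).filter (fun a => a % m = u % m)).card : ℝ) / n) atTop
      (𝓝 (1 / (m : ℝ))) := by
  rw [tendsto_iff_dist_tendsto_zero]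
  refine squeeze_zero' (Eventually.of_forall fun _ => dist_nonneg) ?_
    (tendsto_const_div_atTop_nhds_zero_nat 3)
  filter_upwards [eventually_gt_atTop 0] with n hn
  have hn' : (0 : ℝ) < n := Nat.cast_pos.2 hn
  have h := class_bound hm u n
  rw [Real.dist_eq]
  have h2 : (((Icc 1 n).filter (fun a => a % m = u % m)).card : ℝ) / n - 1 / m =
      ((((Icc 1 n).filter (fun a => a % m = u % m)).card : ℝ) - n / m) / n := by
    field_simp
  rw [h2, abs_div, abs_of_pos hn']
  gcongr

/-- Averages of a doubly periodic function over large squares. -/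
theorem tendsto_average {m : ℕ} (hm : 0 < m) {f : ℕ → ℕ → ℝ} (hf : Per m f) :
    Tendsto (fun n : ℕ => (∑ x ∈ Icc 1 n ×ˢ Icc 1 n, f x.1 x.2) / (n : ℝ) ^ 2) atTop
      (𝓝 (SQ m f / (m : ℝ) ^ 2)) := by
  have h1 : ∀ n : ℕ, (∑ x ∈ Icc 1 n ×ˢ Icc 1 n, f x.1 x.2) / (n : ℝ) ^ 2 =
      ∑ u ∈ range m, ∑ v ∈ range m, f u v *
        ((((Icc 1 n).filter (fun a => a % m = u % m)).card : ℝ) / n) *
        ((((Icc 1 n).filter (fun a => a % m = v % m)).card : ℝ) / n) := by
    intro n
    have h2 : ∀ a b, f a b = ∑ u ∈ range m, ∑ v ∈ range m,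
        f u v * (if a % m = u % m then 1 else 0) * (if b % m = v % m then 1 else 0) := by
      intro a b
      rw [Finset.sum_eq_single (a % m)]
      · rw [Finset.sum_eq_single (b % m)]
        · rw [Nat.mod_mod, Nat.mod_mod, if_pos rfl, if_pos rfl, mul_one, mul_one]
          have h3 : Function.Periodic (fun a => f a b) m := fun a => hf.1 a b
          have h4 : Function.Periodic (fun b => f (a % m) b) m := fun b => hf.2 _ b
          have h5 : f (a % m) b = f a b := h3.map_mod_nat a
          have h6 : f (a % m) (b % m) = f (a % m) b := h4.map_mod_nat b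
          rw [h6, h5]
        · intro v hv hv2
          rw [mem_range] at hv
          rw [if_neg (c := b % m = v % m), mul_zero]
          rw [Nat.mod_eq_of_lt hv]
          exact fun h => hv2 h.symm
        · intro h
          exact absurd (mem_range.2 (Nat.mod_lt _ hm)) h
      · intro u hu hu2
        rw [mem_range] at hu
        apply Finset.sum_eq_zero
        intro v _
        rw [if_neg (c := a % m = u % m), mul_zero, zero_mul]
        rw [Nat.mod_eq_of_lt hu]
        exact fun h => hu2 h.symm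
      · intro h
        exact absurd (mem_range.2 (Nat.mod_lt _ hm)) h
    have h7 : ∀ u : ℕ, (((Icc 1 n).filter (fun a => a % m = u % m)).card : ℝ) =
        ∑ a ∈ Icc 1 n, if a % m = u % m then (1 : ℝ) else 0 := by
      intro u
      rw [Finset.card_filter]
      push_cast
      rfl
    rw [Finset.sum_product]
    simp_rw [h7]
    calc (∑ a ∈ Icc 1 n, ∑ b ∈ Icc 1 n, f a b) / (n : ℝ) ^ 2
        = (∑ a ∈ Icc 1 n, ∑ b ∈ Icc 1 n, ∑ u ∈ range m, ∑ v ∈ range m,
          f u v * (if a % m = u % m then 1 else 0) * (if b % m = v % m then 1 else 0)) /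
            (n : ℝ) ^ 2 := by
          congr 1
          exact Finset.sum_congr rfl fun a _ => Finset.sum_congr rfl fun b _ => h2 a b
      _ = (∑ u ∈ range m, ∑ v ∈ range m, ∑ a ∈ Icc 1 n, ∑ b ∈ Icc 1 n,
          f u v * (if a % m = u % m then 1 else 0) * (if b % m = v % m then 1 else 0)) /
            (n : ℝ) ^ 2 := by
          congr 1
          calc _ = ∑ a ∈ Icc 1 n, ∑ u ∈ range m, ∑ b ∈ Icc 1 n, ∑ v ∈ range m,
              f u v * (if a % m = u % m then 1 else 0) * (if b % m = v % m then 1 else 0) :=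
                Finset.sum_congr rfl fun a _ => Finset.sum_comm
            _ = ∑ u ∈ range m, ∑ a ∈ Icc 1 n, ∑ b ∈ Icc 1 n, ∑ v ∈ range m,
              f u v * (if a % m = u % m then 1 else 0) * (if b % m = v % m then 1 else 0) :=
                Finset.sum_comm
            _ = ∑ u ∈ range m, ∑ a ∈ Icc 1 n, ∑ v ∈ range m, ∑ b ∈ Icc 1 n,
              f u v * (if a % m = u % m then 1 else 0) * (if b % m = v % m then 1 else 0) :=
                Finset.sum_congr rfl fun u _ => Finset.sum_congr rfl fun a _ => Finset.sum_comm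
            _ = _ := Finset.sum_congr rfl fun u _ => Finset.sum_comm
      _ = _ := by
          rw [Finset.sum_div]
          refine Finset.sum_congr rfl fun u _ => ?_
          rw [Finset.sum_div]
          refine Finset.sum_congr rfl fun v _ => ?_
          simp_rw [← Finset.mul_sum, ← Finset.sum_mul, ← Finset.mul_sum]
          ring
  simp_rw [h1]
  have h3 : SQ m f / (m : ℝ) ^ 2 =
      ∑ u ∈ range m, ∑ v ∈ range m, f u v * (1 / (m : ℝ)) * (1 / (m : ℝ)) := by
    unfold SQ
    rw [Finset.sum_div]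
    refine Finset.sum_congr rfl fun u _ => ?_
    rw [Finset.sum_div]
    refine Finset.sum_congr rfl fun v _ => ?_
    ring
  rw [h3]
  refine tendsto_finsetSum _ fun u _ => tendsto_finsetSum _ fun v _ => ?_
  exact ((tendsto_const_nhds.mul (tendsto_class hm u)).mul (tendsto_class hm v))

end Pool.Agent.R352.CV
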