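import Pool.Agent.R352.CV.Periodic

/-! Variance of the sieved coprime count over a full period. -/

namespace Pool.Agent.R352.CV

open Finset Filter Topology

/-- Indicator of `p ∣ a + i`. -/
noncomputable def e (p i a : ℕ) : ℝ := if p ∣ a + i then 1 else 0

theorem e_periodic (p i : ℕ) : Function.Periodic (e p i) p := by
  intro a
  unfold e
  have h : p ∣ a + p + i ↔ p ∣ a + i := by
    rw [show a + p + i = (a + i) + p by ring]
    exact Nat.dvd_add_self_right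
  simp only [h]

theorem e_eq_zero_or_one (p i a : ℕ) : e p i a = 0 ∨ e p i a = 1 := by
  unfold e
  split_ifs <;> simp

theorem sum_e {p : ℕ} (hp : 0 < p) (i : ℕ) : ∑ a ∈ range p, e p i a = 1 := by
  unfold e
  -- the unique a is (p - i % p) % p
  rw [Finset.sum_ite, Finset.sum_const_zero, add_zero, Finset.sum_const, nsmul_eq_mul, mul_one]
  have h : (range p).filter (fun a => p ∣ a + i) = {(p - i % p) % p} := by
    ext a
    simp only [mem_filter, mem_range, mem_singleton]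
    have hi := Nat.mod_lt i hp
    constructor
    · rintro ⟨h1, h2⟩
      rw [Nat.dvd_iff_mod_eq_zero, Nat.add_mod] at h2
      rw [Nat.mod_eq_of_lt h1] at h2
      by_cases h3 : i % p = 0
      · rw [h3, add_zero, Nat.mod_eq_of_lt h1] at h2
        rw [h3, h2, Nat.sub_zero, Nat.mod_self]
      · have h4 : a + i % p = p := by
          by_contra hne
          rcases Nat.lt_or_gt_of_ne hne with h5 | h5
          · rw [Nat.mod_eq_of_lt h5] at h2
            omega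
          · rw [Nat.mod_eq_sub_mod h5.le, Nat.mod_eq_of_lt (by omega)] at h2
            omega
        rw [Nat.mod_eq_of_lt (by omega)]
        omega
    · intro h
      subst h
      refine ⟨Nat.mod_lt _ hp, ?_⟩
      rw [Nat.dvd_iff_mod_eq_zero, Nat.add_mod, Nat.mod_mod, ← Nat.add_mod, Nat.add_mod]
      by_cases h3 : i % p = 0
      · simp [h3]
      · rw [Nat.mod_eq_of_lt (show p - i % p < p by omega)]
        rw [Nat.sub_add_cancel hi.le, Nat.mod_self]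
  rw [h, Finset.card_singleton, Nat.cast_one]

theorem e_mul_e (p i i' a : ℕ) :
    e p i a * e p i' a = e p i a * (if i ≡ i' [MOD p] then 1 else 0) := by
  unfold e
  by_cases h1 : p ∣ a + i
  · rw [if_pos h1, one_mul, one_mul]
    have h2 : p ∣ a + i' ↔ i ≡ i' [MOD p] := by
      constructor
      · intro h3
        have h4 : a + i ≡ a + i' [MOD p] :=
          (Nat.modEq_zero_iff_dvd.2 h1).trans (Nat.modEq_zero_iff_dvd.2 h3).symm
        exact Nat.ModEq.add_left_cancel' a h4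
      · intro h3
        have h4 : a + i ≡ a + i' [MOD p] := Nat.ModEq.add_left a h3
        exact Nat.modEq_zero_iff_dvd.1 (h4.symm.trans (Nat.modEq_zero_iff_dvd.2 h1))
    simp only [h2]
  · rw [if_neg h1, zero_mul, zero_mul]

theorem sum_e_mul_e {p : ℕ} (hp : 0 < p) (i i' : ℕ) :
    ∑ a ∈ range p, e p i a * e p i' a = if i ≡ i' [MOD p] then 1 else 0 := by
  simp_rw [e_mul_e]
  rw [← Finset.sum_mul, sum_e hp, one_mul]

/-- Local factor: `1` unless `p` divides both `a + i` and `b + j`. -/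
noncomputable def loc (p i j a b : ℕ) : ℝ := 1 - e p i a * e p j b

theorem per_loc (p i j : ℕ) : Per p (loc p i j) :=
  ⟨fun a b => by unfold loc; rw [e_periodic p i a], fun a b => by
    unfold loc; rw [e_periodic p j b]⟩

theorem SQ_loc {p : ℕ} (hp : 0 < p) (i j : ℕ) : SQ p (loc p i j) = (p : ℝ) ^ 2 - 1 := by
  unfold SQ loc
  simp_rw [Finset.sum_sub_distrib, ← Finset.mul_sum, sum_e hp, mul_one]
  rw [sum_e hp]
  simp
  ring

theorem SQ_loc_mul_loc {p : ℕ} (hp : 0 < p) (i j i' j' : ℕ) :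
    SQ p (fun a b => loc p i j a b * loc p i' j' a b) =
      (if i ≡ i' [MOD p] ∧ j ≡ j' [MOD p] then 1 else 0) + ((p : ℝ) ^ 2 - 2) := by
  unfold SQ loc
  have h : ∀ a b, (1 - e p i a * e p j b) * (1 - e p i' a * e p j' b) =
      1 - e p i a * e p j b - e p i' a * e p j' b + (e p i a * e p i' a) * (e p j b * e p j' b) :=
    fun a b => by ring
  simp_rw [h, Finset.sum_add_distrib, Finset.sum_sub_distrib, ← Finset.mul_sum, sum_e hp,
    sum_e_mul_e hp, mul_one, ← Finset.sum_mul, sum_e hp, sum_e_mul_e hp]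
  by_cases h1 : i ≡ i' [MOD p] <;> by_cases h2 : j ≡ j' [MOD p] <;> simp [h1, h2] <;> ring

/-- Number of pairs congruent modulo `d`. -/
def N (M d : ℕ) : ℕ :=
  ((range M ×ˢ range M).filter (fun x => x.1 ≡ x.2 [MOD d])).card

theorem card_class {d : ℕ} (hd : 0 < d) (M u : ℕ) :
    ((range M).filter (fun x => x ≡ u [MOD d])).card =
      M / d + if u % d < M % d then 1 else 0 := by
  rw [← Nat.count_modEq_card M hd u, Nat.count_eq_card_filter_range]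

theorem N_eq {d : ℕ} (hd : 0 < d) (M : ℕ) : N M d = M * (M / d) + (M % d) * (M / d + 1) := by
  unfold N
  rw [Finset.card_filter, Finset.sum_product_right]
  have h1 : ∀ u, ∑ x ∈ range M, (if x ≡ u [MOD d] then 1 else 0) =
      M / d + if u % d < M % d then 1 else 0 := by
    intro u
    rw [← card_class hd M u, Finset.card_filter]
  simp only [h1]
  rw [Finset.sum_add_distrib, Finset.sum_const, card_range, smul_eq_mul]
  congr 1
  rw [← Finset.card_filter]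
  have h2 : (range M).filter (fun u => u % d < M % d) =
      (range (M % d)).biUnion (fun c => (range M).filter (fun x => x ≡ c [MOD d])) := by
    ext x
    simp only [mem_filter, mem_range, mem_biUnion]
    have hr := Nat.mod_lt M hd
    constructor
    · rintro ⟨h3, h4⟩
      exact ⟨x % d, h4, h3, (Nat.mod_modEq x d).symm⟩
    · rintro ⟨c, hc, h3, h4⟩
      refine ⟨h3, ?_⟩
      rw [h4, Nat.mod_eq_of_lt (hc.trans hr)]
      exact hc
  rw [h2, Finset.card_biUnion]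
  · rw [Finset.sum_congr rfl (g := fun _ => M / d + 1)]
    · rw [Finset.sum_const, card_range, smul_eq_mul]
    · intro c hc
      rw [mem_range] at hc
      rw [card_class hd, Nat.mod_eq_of_lt (hc.trans (Nat.mod_lt M hd)), if_pos hc]
  · intro c hc c' hc' hne
    rw [Function.onFun, Finset.disjoint_left]
    intro x hx hx'
    simp only [mem_filter, mem_range] at hx hx'
    simp only [Finset.coe_range, Set.mem_Iio] at hc hc'
    have hr := Nat.mod_lt M hd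
    exact hne (Nat.ModEq.eq_of_lt_of_lt (hx.2.symm.trans hx'.2) (hc.trans hr) (hc'.trans hr))

/-- The key elementary bound. -/
theorem N_sq_le {d : ℕ} (hd : 0 < d) (M : ℕ) :
    (N M d : ℝ) ^ 2 - (M : ℝ) ^ 4 / (d : ℝ) ^ 2 ≤ (M : ℝ) ^ 2 := by
  have hd' : (0 : ℝ) < d := Nat.cast_pos.2 hd
  have hM : (M : ℝ) = d * ((M / d : ℕ) : ℝ) + ((M % d : ℕ) : ℝ) := by
    exact_mod_cast (Nat.div_add_mod M d).symm
  have hN : (N M d : ℝ) = M * ((M / d : ℕ) : ℝ) +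
      ((M % d : ℕ) : ℝ) * (((M / d : ℕ) : ℝ) + 1) := by
    exact_mod_cast N_eq hd M
  have hr : ((M % d : ℕ) : ℝ) ≤ d := by exact_mod_cast (Nat.mod_lt M hd).le
  set q : ℝ := ((M / d : ℕ) : ℝ) with hq
  set r : ℝ := ((M % d : ℕ) : ℝ) with hrr
  have hr0 : 0 ≤ r := Nat.cast_nonneg _
  have hq0 : 0 ≤ q := Nat.cast_nonneg _
  -- N = M^2/d + r(d-r)/d
  have hN2 : (N M d : ℝ) = (M : ℝ) ^ 2 / d + r * (d - r) / d := by
    rw [hN, hM]
    field_simp
    ring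
  have ht : r * (d - r) / d ≤ d / 4 := by
    rw [div_le_iff₀ hd']
    nlinarith [sq_nonneg (r - d / 2)]
  have ht0 : 0 ≤ r * (d - r) / d := div_nonneg (mul_nonneg hr0 (by linarith)) hd'.le
  by_cases hle : d ≤ M
  · have hle' : (d : ℝ) ≤ M := by exact_mod_cast hle
    have h1 : (N M d : ℝ) ^ 2 - (M : ℝ) ^ 4 / (d : ℝ) ^ 2 =
        (r * (d - r) / d) * (2 * (M : ℝ) ^ 2 / d + r * (d - r) / d) := by
      rw [hN2]
      ring
    rw [h1]
    calc (r * (d - r) / d) * (2 * (M : ℝ) ^ 2 / d + r * (d - r) / d)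
        ≤ (d / 4) * (2 * (M : ℝ) ^ 2 / d + d / 4) := by gcongr
      _ = (M : ℝ) ^ 2 / 2 + (d : ℝ) ^ 2 / 16 := by field_simp; ring
      _ ≤ (M : ℝ) ^ 2 / 2 + (M : ℝ) ^ 2 / 16 := by gcongr
      _ ≤ (M : ℝ) ^ 2 := by nlinarith [sq_nonneg (M : ℝ)]
  · have hlt : M < d := not_le.1 hle
    have h2 : N M d = M := by
      rw [N_eq hd, Nat.div_eq_of_lt hlt, Nat.mod_eq_of_lt hlt]
      ring
    rw [h2]
    have h3 : (0 : ℝ) ≤ (M : ℝ) ^ 4 / (d : ℝ) ^ 2 := by positivity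
    linarith

theorem prod_ite_modEq (T : Finset ℕ) (hT : ∀ p ∈ T, p.Prime) (i j i' j' : ℕ) :
    ∏ p ∈ T, (if i ≡ i' [MOD p] ∧ j ≡ j' [MOD p] then (1 : ℝ) else 0) =
      (if i ≡ i' [MOD ∏ p ∈ T, p] then 1 else 0) *
        (if j ≡ j' [MOD ∏ p ∈ T, p] then 1 else 0) := by
  have key : ∀ u v : ℕ, u ≡ v [MOD ∏ p ∈ T, p] ↔ ∀ p ∈ T, u ≡ v [MOD p] := by
    intro u v
    rw [← Int.natCast_modEq_iff, Int.modEq_iff_dvd]
    constructor
    · intro h p hp
      rw [← Int.natCast_modEq_iff, Int.modEq_iff_dvd]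
      exact (Int.natCast_dvd_natCast.2 (Finset.dvd_prod_of_mem _ hp)).trans h
    · intro h
      push_cast
      apply Finset.prod_dvd_of_coprime
      · intro p hp q hq hne
        exact Nat.isCoprime_iff_coprime.2 ((Nat.coprime_primes (hT p hp) (hT q hq)).2 hne)
      · intro p hp
        have := h p hp
        rw [← Int.natCast_modEq_iff, Int.modEq_iff_dvd] at this
        exact this
  by_cases h1 : i ≡ i' [MOD ∏ p ∈ T, p]
  · by_cases h2 : j ≡ j' [MOD ∏ p ∈ T, p]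
    · rw [if_pos h1, if_pos h2, mul_one]
      apply Finset.prod_eq_one
      intro p hp
      rw [if_pos ⟨(key i i').1 h1 p hp, (key j j').1 h2 p hp⟩]
    · rw [if_pos h1, if_neg h2, mul_zero]
      rw [key] at h2
      push Not at h2
      obtain ⟨p, hp, h3⟩ := h2
      apply Finset.prod_eq_zero hp
      rw [if_neg]
      exact fun h => h3 h.2
  · rw [if_neg h1, zero_mul]
    rw [key] at h1
    push Not at h1
    obtain ⟨p, hp, h3⟩ := h1
    apply Finset.prod_eq_zero hp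
    rw [if_neg]
    exact fun h => h3 h.1

/-- The sieved coprime count (block indexed by `1..M`). -/
noncomputable def W (S : Finset ℕ) (M a b : ℕ) : ℝ :=
  ∑ x ∈ range M ×ˢ range M, ∏ p ∈ S, loc p (x.1 + 1) (x.2 + 1) a b

theorem SQ_sum {ι : Type*} (s : Finset ι) (m : ℕ) (f : ι → ℕ → ℕ → ℝ) :
    SQ m (fun a b => ∑ i ∈ s, f i a b) = ∑ i ∈ s, SQ m (f i) := by
  unfold SQ
  rw [Finset.sum_comm' (s := s) (t := fun _ => range m) (t' := range m) (s' := fun _ => s)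
    (by simp [and_comm])]
  exact Finset.sum_congr rfl fun a _ => Finset.sum_comm

theorem SQ_W (S : Finset ℕ) (hS : ∀ p ∈ S, p.Prime) (M : ℕ) :
    SQ (∏ p ∈ S, p) (W S M) = (M : ℝ) ^ 2 * ∏ p ∈ S, ((p : ℝ) ^ 2 - 1) := by
  unfold W
  rw [SQ_sum]
  have h : ∀ x ∈ range M ×ˢ range M,
      SQ (∏ p ∈ S, p) (fun a b => ∏ p ∈ S, loc p (x.1 + 1) (x.2 + 1) a b) =
        ∏ p ∈ S, ((p : ℝ) ^ 2 - 1) := by
    intro x _
    rw [SQ_prod S hS (g := fun p => loc p (x.1 + 1) (x.2 + 1)) fun p _ => per_loc p _ _]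
    exact Finset.prod_congr rfl fun p hp => SQ_loc (hS p hp).pos _ _
  rw [Finset.sum_congr rfl h, Finset.sum_const, card_product, card_range, nsmul_eq_mul]
  push_cast
  ring

theorem SQ_W_sq (S : Finset ℕ) (hS : ∀ p ∈ S, p.Prime) (M : ℕ) :
    SQ (∏ p ∈ S, p) (fun a b => W S M a b ^ 2) =
      ∑ T ∈ S.powerset, (∏ p ∈ S \ T, ((p : ℝ) ^ 2 - 2)) * (N M (∏ p ∈ T, p) : ℝ) ^ 2 := by
  have h1 : ∀ a b, W S M a b ^ 2 = ∑ x ∈ range M ×ˢ range M, ∑ y ∈ range M ×ˢ range M,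
      ∏ p ∈ S, (loc p (x.1 + 1) (x.2 + 1) a b * loc p (y.1 + 1) (y.2 + 1) a b) := by
    intro a b
    unfold W
    rw [sq, Finset.sum_mul_sum]
    exact Finset.sum_congr rfl fun x _ => Finset.sum_congr rfl fun y _ =>
      Finset.prod_mul_distrib.symm
  simp_rw [h1]
  rw [SQ_sum]
  simp_rw [SQ_sum]
  have h2 : ∀ x ∈ range M ×ˢ range M, ∀ y ∈ range M ×ˢ range M,
      SQ (∏ p ∈ S, p) (fun a b =>
        ∏ p ∈ S, (loc p (x.1 + 1) (x.2 + 1) a b * loc p (y.1 + 1) (y.2 + 1) a b)) =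
      ∑ T ∈ S.powerset, ((if x.1 ≡ y.1 [MOD ∏ p ∈ T, p] then (1 : ℝ) else 0) *
        (if x.2 ≡ y.2 [MOD ∏ p ∈ T, p] then 1 else 0)) * ∏ p ∈ S \ T, ((p : ℝ) ^ 2 - 2) := by
    intro x _ y _
    rw [SQ_prod S hS (g := fun p a b =>
      loc p (x.1 + 1) (x.2 + 1) a b * loc p (y.1 + 1) (y.2 + 1) a b)
      fun p _ => (per_loc p _ _).mul' (per_loc p _ _)]
    rw [Finset.prod_congr rfl fun p hp => SQ_loc_mul_loc (hS p hp).pos _ _ _ _,
      Finset.prod_add]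
    refine Finset.sum_congr rfl fun T hT => ?_
    rw [prod_ite_modEq T fun p hp => hS p (Finset.mem_powerset.1 hT hp)]
    have h3 : ∀ u v : ℕ, u + 1 ≡ v + 1 [MOD ∏ p ∈ T, p] ↔ u ≡ v [MOD ∏ p ∈ T, p] :=
      fun u v => ⟨fun h => Nat.ModEq.add_right_cancel' 1 h, fun h => Nat.ModEq.add_right 1 h⟩
    simp only [h3]
  rw [Finset.sum_congr rfl fun x hx => Finset.sum_congr rfl fun y hy => h2 x hx y hy]
  have h4 : ∀ d : ℕ, ∑ x ∈ range M ×ˢ range M, ∑ y ∈ range M ×ˢ range M,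
      ((if x.1 ≡ y.1 [MOD d] then (1 : ℝ) else 0) * (if x.2 ≡ y.2 [MOD d] then 1 else 0)) =
      (N M d : ℝ) ^ 2 := by
    intro d
    have h5 : (N M d : ℝ) = ∑ u ∈ range M, ∑ v ∈ range M,
        (if u ≡ v [MOD d] then (1 : ℝ) else 0) := by
      unfold N
      rw [Finset.card_filter, Finset.sum_product]
      push_cast
      rfl
    rw [h5, sq, Finset.sum_product]
    simp_rw [Finset.sum_product]
    calc _ = ∑ x ∈ range M, ∑ x' ∈ range M, (∑ u ∈ range M, if x ≡ u [MOD d] then (1 : ℝ) else 0) *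
          (∑ v ∈ range M, if x' ≡ v [MOD d] then (1 : ℝ) else 0) := by
          refine Finset.sum_congr rfl fun x _ => Finset.sum_congr rfl fun x' _ => ?_
          rw [Finset.sum_mul_sum]
      _ = _ := by
          rw [Finset.sum_mul_sum]
  calc _ = ∑ T ∈ S.powerset, ∑ x ∈ range M ×ˢ range M, ∑ y ∈ range M ×ˢ range M,
        ((if x.1 ≡ y.1 [MOD ∏ p ∈ T, p] then (1 : ℝ) else 0) *
        (if x.2 ≡ y.2 [MOD ∏ p ∈ T, p] then 1 else 0)) * ∏ p ∈ S \ T, ((p : ℝ) ^ 2 - 2) := by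
        rw [Finset.sum_congr rfl fun x _ => Finset.sum_comm]
        exact Finset.sum_comm
    _ = _ := by
        refine Finset.sum_congr rfl fun T _ => ?_
        simp_rw [← Finset.sum_mul]
        rw [h4, mul_comm]

/-- Variance bound over a full period: the variance is at most the mean. -/
theorem variance_le (S : Finset ℕ) (hS : ∀ p ∈ S, p.Prime) (M : ℕ) :
    SQ (∏ p ∈ S, p) (fun a b => W S M a b ^ 2) / ((∏ p ∈ S, p : ℕ) : ℝ) ^ 2 -
      (SQ (∏ p ∈ S, p) (W S M) / ((∏ p ∈ S, p : ℕ) : ℝ) ^ 2) ^ 2 ≤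
      SQ (∏ p ∈ S, p) (W S M) / ((∏ p ∈ S, p : ℕ) : ℝ) ^ 2 := by
  have hQ : (0 : ℝ) < ((∏ p ∈ S, p : ℕ) : ℝ) :=
    Nat.cast_pos.2 (Finset.prod_pos fun p hp => (hS p hp).pos)
  have hp2 : ∀ p ∈ S, (0 : ℝ) ≤ (p : ℝ) ^ 2 - 2 := by
    intro p hp
    have : (2 : ℝ) ≤ p := by exact_mod_cast (hS p hp).two_le
    nlinarith
  rw [SQ_W S hS, SQ_W_sq S hS]
  set Q : ℝ := ((∏ p ∈ S, p : ℕ) : ℝ) with hQdef
  have hQ2 : Q ^ 2 = ∏ p ∈ S, (p : ℝ) ^ 2 := by
    rw [hQdef]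
    push_cast
    rw [Finset.prod_pow]
  have hA : ∏ p ∈ S, ((p : ℝ) ^ 2 - 1) = ∑ T ∈ S.powerset, ∏ p ∈ S \ T, ((p : ℝ) ^ 2 - 2) := by
    have h : ∀ p ∈ S, (p : ℝ) ^ 2 - 1 = 1 + ((p : ℝ) ^ 2 - 2) := fun p _ => by ring
    rw [Finset.prod_congr rfl h, Finset.prod_add]
    refine Finset.sum_congr rfl fun T _ => ?_
    rw [Finset.prod_const_one, one_mul]
  have hB : (∏ p ∈ S, ((p : ℝ) ^ 2 - 1)) ^ 2 = Q ^ 2 * ∑ T ∈ S.powerset,
      (∏ p ∈ S \ T, ((p : ℝ) ^ 2 - 2)) / ((∏ p ∈ T, p : ℕ) : ℝ) ^ 2 := by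
    rw [hQ2, ← Finset.prod_pow]
    have h : ∀ p ∈ S, ((p : ℝ) ^ 2 - 1) ^ 2 =
        (p : ℝ) ^ 2 * (1 / (p : ℝ) ^ 2 + ((p : ℝ) ^ 2 - 2)) := by
      intro p hp
      have : (0 : ℝ) < p := Nat.cast_pos.2 (hS p hp).pos
      field_simp
      ring
    rw [Finset.prod_congr rfl h, Finset.prod_mul_distrib, Finset.prod_add]
    congr 1
    refine Finset.sum_congr rfl fun T _ => ?_
    rw [Finset.prod_div_distrib, Finset.prod_const_one, Finset.prod_pow]
    push_cast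
    ring
  have hmain : ∑ T ∈ S.powerset, (∏ p ∈ S \ T, ((p : ℝ) ^ 2 - 2)) *
        (N M (∏ p ∈ T, p) : ℝ) ^ 2 -
      (M : ℝ) ^ 4 * ∑ T ∈ S.powerset,
        (∏ p ∈ S \ T, ((p : ℝ) ^ 2 - 2)) / ((∏ p ∈ T, p : ℕ) : ℝ) ^ 2 ≤
      (M : ℝ) ^ 2 * ∏ p ∈ S, ((p : ℝ) ^ 2 - 1) := by
    rw [hA, Finset.mul_sum, Finset.mul_sum, ← Finset.sum_sub_distrib]
    refine Finset.sum_le_sum fun T hT => ?_
    have hT' : ∀ p ∈ T, p.Prime := fun p hp => hS p (Finset.mem_powerset.1 hT hp)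
    have hd : 0 < ∏ p ∈ T, p := Finset.prod_pos fun p hp => (hT' p hp).pos
    have h1 := N_sq_le hd M
    have h2 : (0 : ℝ) ≤ ∏ p ∈ S \ T, ((p : ℝ) ^ 2 - 2) :=
      Finset.prod_nonneg fun p hp => hp2 p (Finset.mem_sdiff.1 hp).1
    calc _ = (∏ p ∈ S \ T, ((p : ℝ) ^ 2 - 2)) * ((N M (∏ p ∈ T, p) : ℝ) ^ 2 -
          (M : ℝ) ^ 4 / ((∏ p ∈ T, p : ℕ) : ℝ) ^ 2) := by ring
      _ ≤ (∏ p ∈ S \ T, ((p : ℝ) ^ 2 - 2)) * (M : ℝ) ^ 2 := by gcongr
      _ = _ := by ring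
  have hQ2pos : (0 : ℝ) < Q ^ 2 := by positivity
  have h3 : ((M : ℝ) ^ 2 * ∏ p ∈ S, ((p : ℝ) ^ 2 - 1)) ^ 2 =
      Q ^ 2 * ((M : ℝ) ^ 4 * ∑ T ∈ S.powerset,
        (∏ p ∈ S \ T, ((p : ℝ) ^ 2 - 2)) / ((∏ p ∈ T, p : ℕ) : ℝ) ^ 2) := by
    rw [mul_pow, hB]
    ring
  rw [div_pow, h3]
  have h4 : Q ^ 2 * ((M : ℝ) ^ 4 * ∑ T ∈ S.powerset,
        (∏ p ∈ S \ T, ((p : ℝ) ^ 2 - 2)) / ((∏ p ∈ T, p : ℕ) : ℝ) ^ 2) / (Q ^ 2) ^ 2 =
      ((M : ℝ) ^ 4 * ∑ T ∈ S.powerset,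
        (∏ p ∈ S \ T, ((p : ℝ) ^ 2 - 2)) / ((∏ p ∈ T, p : ℕ) : ℝ) ^ 2) / Q ^ 2 := by
    field_simp
  rw [h4, ← sub_div]
  exact div_le_div_of_nonneg_right hmain hQ2pos.le

end Pool.Agent.R352.CV
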